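import Pool.Agent.Helper38.WM.St

/-! # WM MODULE JFI: the sequence `Fox.J` is a multiplicative filtration -/

set_option autoImplicit false

namespace Pool.Agent.Helper88.WM

open Pool.Agent.Helper38.WM

variable {p : ℕ} [Fact p.Prime] {X : Type} [Fintype X] [DecidableEq X] {ι : Type}

theorem mem_K (Φ : Fox p X) (I : Submodule (ZMod p) (GA p (FreeGroup X)))
    (f : GA p (FreeGroup X)) : f ∈ Φ.K I ↔ Φ.ε f = 0 ∧ ∀ x, Φ.d x f ∈ I := by
  unfold Fox.K
  rw [Submodule.mem_inf, LinearMap.mem_ker, Submodule.mem_iInf]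
  rfl

theorem K_mono (Φ : Fox p X) {I I' : Submodule (ZMod p) (GA p (FreeGroup X))} (h : I ≤ I') :
    Φ.K I ≤ Φ.K I' := by
  intro f hf
  rw [mem_K] at hf ⊢
  exact ⟨hf.1, fun x => h (hf.2 x)⟩

theorem J_succ (Φ : Fox p X) (r : ι → FreeGroup X) (n : ℕ) :
    Φ.J r (n + 1) = Φ.K (Φ.J r n) ⊔
      ⨆ i, LinearMap.range (LinearMap.mulLeft (ZMod p) (el p (r i) - 1)) := rfl

theorem K_le (Φ : Fox p X) (r : ι → FreeGroup X) (n : ℕ) : Φ.K (Φ.J r n) ≤ Φ.J r (n + 1) := by
  rw [J_succ]; exact le_sup_left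

theorem rel_mem (Φ : Fox p X) (r : ι → FreeGroup X) (n : ℕ) (i : ι) (u : GA p (FreeGroup X)) :
    (el p (r i) - 1) * u ∈ Φ.J r (n + 1) := by
  rw [J_succ]
  refine Submodule.mem_sup_right (Submodule.mem_iSup_of_mem i ?_)
  exact ⟨u, rfl⟩

/-- induction over the elements of `J (n+1)` -/
theorem J_ind (Φ : Fox p X) (r : ι → FreeGroup X) (n : ℕ)
    (T : GA p (FreeGroup X) →ₗ[ZMod p] GA p (FreeGroup X))
    (W : Submodule (ZMod p) (GA p (FreeGroup X)))
    (h1 : ∀ f ∈ Φ.K (Φ.J r n), T f ∈ W) (h2 : ∀ i u, T ((el p (r i) - 1) * u) ∈ W) :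
    ∀ f ∈ Φ.J r (n + 1), T f ∈ W := by
  have h : Φ.J r (n + 1) ≤ W.comap T := by
    rw [J_succ]
    refine sup_le (fun f hf => h1 f hf) (iSup_le fun i => ?_)
    rintro _ ⟨u, rfl⟩
    exact h2 i u
  exact fun f hf => h hf

theorem J_succ_le (Φ : Fox p X) (r : ι → FreeGroup X) (n : ℕ) : Φ.J r (n + 1) ≤ Φ.J r n := by
  induction n with
  | zero => exact le_top
  | succ n ih =>
    rw [J_succ, J_succ]
    exact sup_le_sup_right (K_mono Φ ih) _

theorem J_anti (Φ : Fox p X) (r : ι → FreeGroup X) : Antitone (Φ.J r) :=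
  antitone_nat_of_succ_le (J_succ_le Φ r)

theorem d_one (Φ : Fox p X) (x : X) : Φ.d x 1 = 0 := by
  have h := Φ.leib x 1 1
  have he : Φ.ε 1 = 1 := map_one Φ.ε
  rw [mul_one, mul_one, he, one_smul] at h
  have : Φ.d x 1 + 0 = Φ.d x 1 + Φ.d x 1 := by rw [add_zero]; exact h
  exact (add_left_cancel this).symm

theorem d_el (Φ : Fox p X) (x y : X) :
    Φ.d x (el p (FreeGroup.of y)) = if x = y then 1 else 0 := by
  have h := Φ.d_of x y
  rwa [map_sub, d_one, sub_zero] at h

theorem d_mul0 (Φ : Fox p X) (x : X) {f : GA p (FreeGroup X)} (hf : Φ.ε f = 0)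
    (g : GA p (FreeGroup X)) : Φ.d x (f * g) = Φ.d x f * g := by
  rw [Φ.leib, hf, zero_smul, add_zero]

theorem eps_sub (Φ : Fox p X) (g : FreeGroup X) : Φ.ε (el p g - 1) = 0 := by
  rw [map_sub, Φ.eps_el, map_one, sub_self]

/-- (ii) right ideals -/
theorem J_right (Φ : Fox p X) (r : ι → FreeGroup X) (n : ℕ) (g : GA p (FreeGroup X)) :
    ∀ f ∈ Φ.J r n, f * g ∈ Φ.J r n := by
  induction n with
  | zero => intro f _; exact Submodule.mem_top
  | succ n ih =>
    refine J_ind Φ r n (LinearMap.mulRight (ZMod p) g) _ ?_ ?_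
    · intro f hf
      rw [mem_K] at hf
      apply K_le
      rw [mem_K]
      refine ⟨?_, fun x => ?_⟩
      · show Φ.ε (f * g) = 0
        rw [map_mul, hf.1, zero_mul]
      · show Φ.d x (f * g) ∈ _
        rw [d_mul0 Φ x hf.1]
        exact ih _ (hf.2 x)
    · intro i u
      show (el p (r i) - 1) * u * g ∈ _
      rw [mul_assoc]
      exact rel_mem Φ r n i _

/-- (iii) -/
theorem x_mul (Φ : Fox p X) (r : ι → FreeGroup X) (n : ℕ) (x : X) {f : GA p (FreeGroup X)}
    (hf : f ∈ Φ.J r n) : (el p (FreeGroup.of x) - 1) * f ∈ Φ.K (Φ.J r n) := by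
  rw [mem_K]
  refine ⟨by rw [map_mul, eps_sub, zero_mul], fun y => ?_⟩
  rw [d_mul0 Φ y (eps_sub Φ _), Φ.d_of]
  split_ifs
  · rwa [one_mul]
  · rw [zero_mul]; exact Submodule.zero_mem _

theorem d_inv (Φ : Fox p X) (z x : X) :
    Φ.d z (el p (FreeGroup.of x)⁻¹) = -((if z = x then 1 else 0) * el p (FreeGroup.of x)⁻¹) := by
  have h1 : el p (FreeGroup.of x)⁻¹ * el p (FreeGroup.of x) = (1 : GA p (FreeGroup X)) := by
    rw [el, el, ← map_mul, inv_mul_cancel, map_one]
  have h2 : el p (FreeGroup.of x) * el p (FreeGroup.of x)⁻¹ = (1 : GA p (FreeGroup X)) := by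
    rw [el, el, ← map_mul, mul_inv_cancel, map_one]
  have h := Φ.leib z (el p (FreeGroup.of x)⁻¹) (el p (FreeGroup.of x))
  rw [h1, d_one, Φ.eps_el, one_smul, d_el] at h
  have h3 : Φ.d z (el p (FreeGroup.of x)⁻¹) * el p (FreeGroup.of x) =
      -(if z = x then 1 else 0) := eq_neg_of_add_eq_zero_left h.symm
  have h4 := congrArg (fun a => a * el p (FreeGroup.of x)⁻¹) h3
  simp only [mul_assoc, h2, mul_one] at h4
  rw [h4, neg_mul]

theorem sum_eq (Φ : Fox p X) {f : GA p (FreeGroup X)} (hf : Φ.ε f = 0) :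
    f = ∑ x, (el p (FreeGroup.of x) - 1) * Φ.d x f := by
  have h := Φ.decomp f
  rw [hf, map_zero, zero_add] at h
  exact h

/-- (iv) -/
theorem J_inv (Φ : Fox p X) (r : ι → FreeGroup X) (n : ℕ) (x : X) :
    ∀ f ∈ Φ.J r n, el p (FreeGroup.of x)⁻¹ * f ∈ Φ.J r n := by
  induction n with
  | zero => intro f _; exact Submodule.mem_top
  | succ n ih =>
    have key : ∀ y : X, ∀ g ∈ Φ.J r n,
        el p (FreeGroup.of x)⁻¹ * ((el p (FreeGroup.of y) - 1) * g) ∈ Φ.K (Φ.J r n) := by
      intro y g hg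
      rw [mem_K]
      refine ⟨by rw [map_mul, map_mul, eps_sub, zero_mul, mul_zero], fun z => ?_⟩
      rw [Φ.leib, Φ.eps_el, one_smul, d_inv, d_mul0 Φ z (eps_sub Φ _), Φ.d_of]
      have h1 : el p (FreeGroup.of x)⁻¹ * ((el p (FreeGroup.of y) - 1) * g) ∈ Φ.J r n :=
        ih _ (J_succ_le Φ r n (K_le Φ r n (x_mul Φ r n y hg)))
      refine Submodule.add_mem _ ?_ ?_
      · rw [neg_mul, mul_assoc]
        refine Submodule.neg_mem _ ?_
        split_ifs
        · rwa [one_mul]
        · rw [zero_mul]; exact Submodule.zero_mem _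
      · split_ifs
        · rwa [one_mul]
        · rw [zero_mul]; exact Submodule.zero_mem _
    refine J_ind Φ r n (LinearMap.mulLeft (ZMod p) (el p (FreeGroup.of x)⁻¹)) _ ?_ ?_
    · intro f hf
      rw [mem_K] at hf
      show el p (FreeGroup.of x)⁻¹ * f ∈ _
      apply K_le
      rw [sum_eq Φ hf.1, Finset.mul_sum]
      exact Submodule.sum_mem _ fun y _ => key y _ (hf.2 y)
    · intro i u
      show el p (FreeGroup.of x)⁻¹ * ((el p (r i) - 1) * u) ∈ _
      set f := (el p (r i) - 1) * u with hf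
      have hfm : f ∈ Φ.J r (n + 1) := rel_mem Φ r n i u
      have h1 : el p (FreeGroup.of x)⁻¹ * el p (FreeGroup.of x) = (1 : GA p (FreeGroup X)) := by
        rw [el, el, ← map_mul, inv_mul_cancel, map_one]
      have e : el p (FreeGroup.of x)⁻¹ * f =
          f - el p (FreeGroup.of x)⁻¹ * ((el p (FreeGroup.of x) - 1) * f) := by
        rw [sub_mul, mul_sub, ← mul_assoc _ _ f, h1, one_mul]
        abel
      rw [e]
      exact Submodule.sub_mem _ hfm (K_le Φ r n (key x f (J_succ_le Φ r n hfm)))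

/-- (v) left ideals -/
theorem J_left (Φ : Fox p X) (r : ι → FreeGroup X) (n : ℕ) (a : GA p (FreeGroup X)) :
    ∀ f ∈ Φ.J r n, a * f ∈ Φ.J r n := by
  have hg : ∀ g : FreeGroup X, ∀ f ∈ Φ.J r n, el p g * f ∈ Φ.J r n := by
    intro g
    induction g using FreeGroup.induction_on with
    | C1 => intro f hf; rw [el, map_one, one_mul]; exact hf
    | of x =>
      intro f hf
      have e : el p (FreeGroup.of x) * f = (el p (FreeGroup.of x) - 1) * f + f := by
        rw [sub_mul, one_mul]; abel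
      show el p (FreeGroup.of x) * f ∈ _
      rw [e]
      exact Submodule.add_mem _ (J_succ_le Φ r n (K_le Φ r n (x_mul Φ r n x hf))) hf
    | inv_of x _ => intro f hf; exact J_inv Φ r n x f hf
    | mul a b ha hb =>
      intro f hf
      have e : el p (a * b) * f = el p a * (el p b * f) := by
        rw [el, map_mul, mul_assoc]
      rw [e]
      exact ha _ (hb _ hf)
  intro f hf
  induction a using MonoidAlgebra.induction_on with
  | of g => exact hg g f hf
  | add a b ha hb => rw [add_mul]; exact Submodule.add_mem _ ha hb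
  | smul c a ha => rw [smul_mul_assoc]; exact Submodule.smul_mem _ _ ha

/-- (vi) -/
theorem J_mul (Φ : Fox p X) (r : ι → FreeGroup X) (m l : ℕ) :
    ∀ a ∈ Φ.J r m, ∀ b ∈ Φ.J r l, a * b ∈ Φ.J r (m + l) := by
  induction m with
  | zero => intro a _ b hb; rw [zero_add]; exact J_left Φ r l a b hb
  | succ m ih =>
    intro a ha b hb
    have e : m + 1 + l = (m + l) + 1 := by ring
    rw [e]
    refine J_ind Φ r m (LinearMap.mulRight (ZMod p) b) _ ?_ ?_ a ha
    · intro f hf
      rw [mem_K] at hf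
      show f * b ∈ _
      apply K_le
      rw [sum_eq Φ hf.1, Finset.sum_mul]
      refine Submodule.sum_mem _ fun x _ => ?_
      rw [mul_assoc]
      exact x_mul Φ r (m + l) x (ih _ (hf.2 x) b hb)
    · intro i u
      show (el p (r i) - 1) * u * b ∈ _
      rw [mul_assoc]
      exact rel_mem Φ r (m + l) i _

/-- (vii) -/
theorem J_fin (Φ : Fox p X) (r : ι → FreeGroup X) (n : ℕ) :
    Module.Finite (ZMod p) (GA p (FreeGroup X) ⧸ Φ.J r n) := by
  induction n with
  | zero =>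
    have : Subsingleton (GA p (FreeGroup X) ⧸ Φ.J r 0) :=
      Submodule.Quotient.subsingleton_iff.mpr rfl
    infer_instance
  | succ n ih =>
    let φ : GA p (FreeGroup X) →ₗ[ZMod p]
        ZMod p × (X → (GA p (FreeGroup X) ⧸ Φ.J r n)) :=
      Φ.ε.toLinearMap.prod (LinearMap.pi fun x => (Φ.J r n).mkQ ∘ₗ Φ.d x)
    have hker : LinearMap.ker φ = Φ.K (Φ.J r n) := by
      ext f
      rw [mem_K, LinearMap.mem_ker]
      constructor
      · intro h
        have h1 := congrArg Prod.fst h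
        have h2 := congrArg Prod.snd h
        refine ⟨h1, fun x => ?_⟩
        have h3 := congrFun h2 x
        exact (Submodule.Quotient.mk_eq_zero _).1 h3
      · rintro ⟨h1, h2⟩
        refine Prod.ext h1 (funext fun x => ?_)
        exact (Submodule.Quotient.mk_eq_zero _).2 (h2 x)
    have hf1 : Module.Finite (ZMod p) (GA p (FreeGroup X) ⧸ LinearMap.ker φ) :=
      Module.Finite.equiv (LinearMap.quotKerEquivRange φ).symm
    have hle : LinearMap.ker φ ≤ Φ.J r (n + 1) := by rw [hker]; exact K_le Φ r n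
    exact Module.Finite.of_surjective (Submodule.factor hle) (Submodule.factor_surjective hle)

/-- **WM MODULE JFI.** -/
theorem hJFI : StJFI := by
  intro p _ X _ _ Φ ι r
  refine ⟨⟨Φ.J r, rfl, J_anti Φ r, ?_, J_fin Φ r⟩, fun _ => rfl⟩
  intro m l
  rw [Submodule.mul_le]
  exact J_mul Φ r m l

end Pool.Agent.Helper88.WM
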